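import Pool.Agent.Helper95.CF.Stmts
import Pool.Agent.Helper1.LN.PT2

/-!
# Row PT3 of the sheet CF
-/

set_option autoImplicit false

namespace Pool.Agent.Helper11.CF

open MeasureTheory Filter Pool.Agent.Helper95.PW Pool.Agent.Helper95.LN Pool.Agent.Helper95.CF
open Pool.Agent.Helper1.LN (nr_sub_comm' nr_nn nr_three et_int et_tr_int et_tr)

theorem pt3_nrc : Continuous nr := by
  unfold nr
  fun_prop

theorem pt3_supp (hP : ST_PHC) (b : ℝ) (hb : 0 < b) (y : R3) (hy : et b y ≠ 0) :
    b / 2 < nr y ∧ nr y < b ∧ 0 < et b y := by
  obtain ⟨_, q2, q3, q4, _, _⟩ := hP.2.2.2 b hb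
  refine ⟨?_, ?_, lt_of_le_of_ne (q2 y) (Ne.symm hy)⟩
  · by_contra hc
    exact hy (q4 y (not_lt.1 hc))
  · by_contra hc
    exact hy (q3 y (not_lt.1 hc))

theorem pt3_nonneg (hP : ST_PHC) (b : ℝ) (hb : 0 < b) (y : R3) : 0 ≤ et b y :=
  (hP.2.2.2 b hb).2.1 y

theorem pt3_cont (hP : ST_PHC) (b : ℝ) (hb : 0 < b) : Continuous (et b) :=
  (hP.2.2.2 b hb).1.continuous

/-- the self potential is integrable -/
theorem pt3_int (hP : ST_PHC) (a : ℝ) (ha : 0 < a) (X0 : R3) :
    Integrable (fun x : R3 => et a (x - X0) / nr (x - X0)) := by
  have hc := pt3_cont hP a ha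
  refine ((et_tr_int hP a ha X0).mul_const (2 / a)).mono' ?_ ?_
  · refine Measurable.aestronglyMeasurable ?_
    refine Measurable.div ?_ ?_
    · exact (hc.comp (continuous_id.sub continuous_const)).measurable
    · exact (pt3_nrc.comp (continuous_id.sub continuous_const)).measurable
  · refine Filter.Eventually.of_forall fun x => ?_
    change ‖et a (x - X0) / nr (x - X0)‖ ≤ et a (x - X0) * (2 / a)
    rw [Real.norm_of_nonneg (div_nonneg (pt3_nonneg hP a ha _) (nr_nn _))]
    by_cases h0 : et a (x - X0) = 0
    · rw [h0, zero_div, zero_mul]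
    · obtain ⟨h1, _, h3⟩ := pt3_supp hP a ha _ h0
      rw [div_eq_mul_inv]
      refine mul_le_mul_of_nonneg_left ?_ h3.le
      rw [inv_le_comm₀ (by linarith) (by positivity), inv_div]
      exact h1.le

theorem PT3 (h1 : ST_PT1) (hP : ST_PHC) : ST_PT3 := by
  intro a a' X0 ha ha'
  refine ⟨?_, ?_⟩
  · have h2 : ∫ x, et a (x - X0) * (1 / a) = kap / a := by
      rw [integral_mul_const, et_tr hP a ha X0]
      ring
    rw [← h2]
    refine integral_mono ((et_tr_int hP a ha X0).mul_const _) (pt3_int hP a ha X0) ?_
    intro x
    change et a (x - X0) * (1 / a) ≤ et a (x - X0) / nr (x - X0)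
    by_cases h0 : et a (x - X0) = 0
    · rw [h0, zero_mul, zero_div]
    · obtain ⟨h3, h4, h5⟩ := pt3_supp hP a ha _ h0
      rw [div_eq_mul_inv]
      refine mul_le_mul_of_nonneg_left ?_ h5.le
      rw [one_mul]
      exact inv_anti₀ (by linarith) h4.le
  · intro hd
    -- the potential of the small shell
    have inner : ∀ x : R3, ∫ y, et a (x - X0) * et a' (y - X0) / nr (x - y) =
        kap * (et a (x - X0) / nr (x - X0)) := by
      intro x
      by_cases h0 : et a (x - X0) = 0
      · simp only [h0, zero_mul, zero_div, integral_zero, mul_zero]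
      · obtain ⟨h3, _, _⟩ := pt3_supp hP a ha _ h0
        have h2 := h1 a' x X0 ha' (by linarith)
        have h4 : (fun y : R3 => et a (x - X0) * et a' (y - X0) / nr (x - y)) =
            fun y : R3 => et a (x - X0) * (et a' (y - X0) / nr (y - x)) := by
          funext y
          rw [nr_sub_comm' x y, mul_div_assoc]
        rw [h4, integral_const_mul, h2]
        ring
    refine ⟨?_, ?_⟩
    · simp only [inner]
      rw [integral_const_mul]
    · have hint : Integrable (Function.uncurry fun x y : R3 =>
          et a' (x - X0) * et a (y - X0) / nr (x - y)) (volume.prod volume) := by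
        have hb := ((et_tr_int hP a' ha' X0).mul_prod (et_tr_int hP a ha X0)).mul_const (4 / a)
        refine hb.mono' ?_ ?_
        · refine Measurable.aestronglyMeasurable ?_
          have c1 : Continuous fun q : R3 × R3 => et a' (q.1 - X0) :=
            (pt3_cont hP a' ha').comp (continuous_fst.sub continuous_const)
          have c2 : Continuous fun q : R3 × R3 => et a (q.2 - X0) :=
            (pt3_cont hP a ha).comp (continuous_snd.sub continuous_const)
          have c3 : Continuous fun q : R3 × R3 => nr (q.1 - q.2) :=
            pt3_nrc.comp (continuous_fst.sub continuous_snd)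
          exact (c1.mul c2).measurable.div c3.measurable
        · refine Filter.Eventually.of_forall fun q => ?_
          obtain ⟨x, y⟩ := q
          change ‖et a' (x - X0) * et a (y - X0) / nr (x - y)‖ ≤
            et a' (x - X0) * et a (y - X0) * (4 / a)
          rw [Real.norm_of_nonneg (div_nonneg (mul_nonneg (pt3_nonneg hP a' ha' _)
            (pt3_nonneg hP a ha _)) (nr_nn _))]
          by_cases h0 : et a' (x - X0) = 0
          · rw [h0, zero_mul, zero_div, zero_mul]
          by_cases h6 : et a (y - X0) = 0
          · rw [h6, mul_zero, zero_div, zero_mul]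
          obtain ⟨_, h4, h5⟩ := pt3_supp hP a' ha' _ h0
          obtain ⟨h7, _, h8⟩ := pt3_supp hP a ha _ h6
          have h9 := nr_three y x X0
          rw [nr_sub_comm' y x] at h9
          have h10 : a / 4 ≤ nr (x - y) := by linarith
          have h11 : 1 / nr (x - y) ≤ 4 / a := by
            rw [div_le_div_iff₀ (by linarith) ha]
            linarith
          have h12 : et a' (x - X0) * et a (y - X0) / nr (x - y) =
              et a' (x - X0) * et a (y - X0) * (1 / nr (x - y)) := by ring
          rw [h12]
          exact mul_le_mul_of_nonneg_left h11 (mul_nonneg h5.le h8.le)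
      rw [integral_integral_swap hint]
      have e : ∀ y : R3, ∫ x, et a' (x - X0) * et a (y - X0) / nr (x - y) =
          kap * (et a (y - X0) / nr (y - X0)) := by
        intro y
        rw [← inner y]
        refine integral_congr_ae (Filter.Eventually.of_forall fun x => ?_)
        change et a' (x - X0) * et a (y - X0) / nr (x - y) =
          et a (y - X0) * et a' (x - X0) / nr (y - x)
        rw [nr_sub_comm' x y, mul_comm (et a' (x - X0))]
      simp only [e]
      rw [integral_const_mul]

end Pool.Agent.Helper11.CF
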